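import Mathlib

/-!
MP_3976d4_co, project HX: words of free edges.

`Cmp x y`: comparable. `Thick E x y`: different comparable elements contained in a chain of three
elements with third element in `E`. `stp E x y l`: the word `l` of oriented free edges after the
step from `x` to `y`. `rho τ l x`: projection of the position `(l, x)` to the component `τ`.
-/

set_option autoImplicit false

namespace Pool.Agent.Helper98.HX

variable {P : Type*} [PartialOrder P]

/-- Comparable. -/
def Cmp (x y : P) : Prop := x ≤ y ∨ y ≤ x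

theorem Cmp.symm {x y : P} (h : Cmp x y) : Cmp y x := Or.symm h

theorem Cmp.refl (x : P) : Cmp x x := Or.inl le_rfl

/-- Different, comparable, and in a chain of three elements whose third element is in `E`. -/
def Thick (E : Set P) (x y : P) : Prop :=
  x ≠ y ∧ Cmp x y ∧ ∃ z ∈ E, z ≠ x ∧ z ≠ y ∧ Cmp z x ∧ Cmp z y

theorem Thick.symm {E : Set P} {x y : P} (h : Thick E x y) : Thick E y x := by
  obtain ⟨h1, h2, z, hz, h3, h4, h5, h6⟩ := h
  exact ⟨h1.symm, h2.symm, z, hz, h4, h3, h6, h5⟩

open Classical in
/-- One step. -/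
noncomputable def stp (E : Set P) (x y : P) (l : List (P × P)) : List (P × P) :=
  if x = y ∨ Thick E x y then l else
    if l.head? = some (y, x) then l.tail else (x, y) :: l

/-- No backtracking. -/
def Red (l : List (P × P)) : Prop := l.IsChain fun c d => c ≠ d.swap

theorem stp_self (E : Set P) (x : P) (l : List (P × P)) : stp E x x l = l := by
  unfold stp
  rw [if_pos (Or.inl rfl)]

theorem stp_thick {E : Set P} {x y : P} (h : Thick E x y) (l : List (P × P)) :
    stp E x y l = l := by
  unfold stp
  rw [if_pos (Or.inr h)]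

theorem stp_cases (E : Set P) (x y : P) (l : List (P × P)) :
    (x = y ∧ stp E x y l = l) ∨ (Thick E x y ∧ stp E x y l = l) ∨
      (x ≠ y ∧ ¬ Thick E x y ∧ ((l = (y, x) :: stp E x y l) ∨
        (l.head? ≠ some (y, x) ∧ stp E x y l = (x, y) :: l))) := by
  by_cases h1 : x = y
  · left
    refine ⟨h1, ?_⟩
    unfold stp
    rw [if_pos (Or.inl h1)]
  · by_cases h2 : Thick E x y
    · right; left
      exact ⟨h2, stp_thick h2 l⟩
    · right; right
      refine ⟨h1, h2, ?_⟩
      have h3 : ¬ (x = y ∨ Thick E x y) := by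
        rintro (h | h)
        · exact h1 h
        · exact h2 h
      by_cases h4 : l.head? = some (y, x)
      · left
        unfold stp
        rw [if_neg h3, if_pos h4]
        cases l with
        | nil => simp at h4
        | cons c t =>
          simp only [List.head?_cons, Option.some.injEq] at h4
          rw [h4, List.tail_cons]
      · right
        refine ⟨h4, ?_⟩
        unfold stp
        rw [if_neg h3, if_neg h4]

theorem red_nil : Red ([] : List (P × P)) := List.isChain_nil

theorem Red.stp {E : Set P} {x y : P} {l : List (P × P)} (h : Red l) : Red (stp E x y l) := by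
  rcases stp_cases E x y l with ⟨-, h1⟩ | ⟨-, h1⟩ | ⟨-, -, h1 | ⟨h1, h2⟩⟩
  · rw [h1]; exact h
  · rw [h1]; exact h
  · rw [h1] at h
    exact List.IsChain.of_cons h
  · rw [h2]
    cases l with
    | nil => exact List.isChain_singleton _
    | cons c t =>
      refine List.isChain_cons_cons.2 ⟨?_, h⟩
      intro h3
      apply h1
      simp only [List.head?_cons, Option.some.injEq]
      have h4 := congrArg Prod.swap h3
      simpa using h4.symm

theorem length_stp (E : Set P) (x y : P) (l : List (P × P)) :
    (stp E x y l).length ≤ l.length + 1 := by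
  rcases stp_cases E x y l with ⟨-, h1⟩ | ⟨-, h1⟩ | ⟨-, -, h1 | ⟨h1, h2⟩⟩
  · rw [h1]; omega
  · rw [h1]; omega
  · have := congrArg List.length h1
    rw [List.length_cons] at this
    omega
  · rw [h2]; simp

theorem mem_stp {E : Set P} {x y : P} {l : List (P × P)} {c : P × P} (h : c ∈ stp E x y l) :
    c ∈ l ∨ (c = (x, y) ∧ x ≠ y) := by
  rcases stp_cases E x y l with ⟨-, h1⟩ | ⟨-, h1⟩ | ⟨h0, -, h1 | ⟨h1, h2⟩⟩
  · rw [h1] at h; exact Or.inl h
  · rw [h1] at h; exact Or.inl h
  · left
    rw [h1]
    exact List.mem_cons_of_mem _ h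
  · rw [h2] at h
    rcases List.mem_cons.1 h with h3 | h3
    · exact Or.inr ⟨h3, h0⟩
    · exact Or.inl h3

theorem stp_back {E : Set P} {x y : P} {l : List (P × P)} (hl : Red l) :
    stp E y x (stp E x y l) = l := by
  rcases stp_cases E x y l with ⟨h0, h1⟩ | ⟨h0, h1⟩ | ⟨h0, h0', h1 | ⟨h1, h2⟩⟩
  · rw [h1, h0, stp_self]
  · rw [h1, stp_thick h0.symm]
  · set t := stp E x y l with ht
    have hn : ¬ Thick E y x := fun h => h0' h.symm
    rcases stp_cases E y x t with ⟨h3, -⟩ | ⟨h3, -⟩ | ⟨-, -, h3 | ⟨-, h3⟩⟩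
    · exact absurd h3.symm h0
    · exact absurd h3 hn
    · exfalso
      rw [h1, h3] at hl
      have := (List.isChain_cons_cons.1 hl).1
      exact this rfl
    · rw [h3]
      exact h1.symm
  · rw [h2]
    have hn : ¬ Thick E y x := fun h => h0' h.symm
    rcases stp_cases E y x ((x, y) :: l) with ⟨h3, -⟩ | ⟨h3, -⟩ | ⟨-, -, h3 | ⟨h3, -⟩⟩
    · exact absurd h3.symm h0
    · exact absurd h3 hn
    · exact (List.cons.inj h3).2.symm
    · exact absurd rfl h3

/-- The triangle rule. -/
theorem stp_tri {E : Set P} {x y z : P} (hx : x ∈ E) (hy : y ∈ E) (hz : z ∈ E) (hxy : Cmp x y)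
    (hyz : Cmp y z) (hxz : Cmp x z) {l : List (P × P)} (hl : Red l) :
    stp E y z (stp E x y l) = stp E x z l := by
  by_cases h1 : x = y
  · subst h1
    rw [stp_self]
  · by_cases h2 : y = z
    · subst h2
      rw [stp_self]
    · by_cases h3 : x = z
      · subst h3
        rw [stp_back hl, stp_self]
      · have t1 : Thick E x y := ⟨h1, hxy, z, hz, fun h => h3 h.symm, fun h => h2 h.symm,
          hxz.symm, hyz.symm⟩
        have t2 : Thick E y z := ⟨h2, hyz, x, hx, h1, h3, hxy, hxz⟩
        have t3 : Thick E x z := ⟨h3, hxz, y, hy, fun h => h1 h.symm, h2, hxy.symm, hyz⟩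
        rw [stp_thick t1, stp_thick t2, stp_thick t3]

open Classical in
/-- The projection of the position `(l, x)` to the component with word `τ`. -/
noncomputable def rho (s : P) (τ l : List (P × P)) (x : P) : P :=
  if l = τ then x else
    if h : ∃ c : P × P, (c :: τ) <:+ l then h.choose.1 else (τ.head?.map Prod.snd).getD s

theorem rho_eq (s : P) (τ : List (P × P)) (x : P) : rho s τ τ x = x := by
  unfold rho
  rw [if_pos rfl]

theorem suffix_unique {τ l : List (P × P)} {c d : P × P} (hc : (c :: τ) <:+ l)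
    (hd : (d :: τ) <:+ l) : c = d := by
  have h := (List.suffix_of_suffix_length_le hc hd (by simp)).eq_of_length (by simp)
  exact (List.cons.inj h).1

theorem rho_exit (s : P) {τ l : List (P × P)} {c : P × P} (h : (c :: τ) <:+ l) (x : P) :
    rho s τ l x = c.1 := by
  have hne : l ≠ τ := by
    rintro rfl
    have := h.length_le
    simp at this
  unfold rho
  rw [if_neg hne, dif_pos ⟨c, h⟩]
  rw [suffix_unique (Exists.choose_spec (⟨c, h⟩ : ∃ c : P × P, (c :: τ) <:+ l)) h]

theorem rho_enter (s : P) {τ l : List (P × P)} (hne : l ≠ τ)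
    (h : ¬ ∃ c : P × P, (c :: τ) <:+ l) (x : P) :
    rho s τ l x = (τ.head?.map Prod.snd).getD s := by
  unfold rho
  rw [if_neg hne, dif_neg h]

theorem rho_cons (s : P) (τ l : List (P × P)) (x y : P) :
    rho s τ l x = rho s τ ((x, y) :: l) y := by
  by_cases h1 : l = τ
  · subst h1
    rw [rho_eq, rho_exit s (List.suffix_refl _)]
  · by_cases h2 : (x, y) :: l = τ
    · subst h2
      rw [rho_eq, rho_enter s h1]
      · simp
      · rintro ⟨c, hc⟩
        have := hc.length_le
        simp only [List.length_cons] at this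
        omega
    · by_cases h3 : ∃ c : P × P, (c :: τ) <:+ l
      · obtain ⟨c, hc⟩ := h3
        rw [rho_exit s hc, rho_exit s (hc.trans (List.suffix_cons _ _))]
      · rw [rho_enter s h1 h3, rho_enter s h2]
        rintro ⟨c, hc⟩
        rcases List.suffix_cons_iff.1 hc with h4 | h4
        · exact h1 (List.cons.inj h4).2.symm
        · exact h3 ⟨c, h4⟩

/-- The projections of two successive positions are equal, or thick and both in `τ`. -/
theorem rho_stp (s : P) (E : Set P) (τ l : List (P × P)) (x y : P) :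
    rho s τ l x = rho s τ (stp E x y l) y ∨
      (l = τ ∧ stp E x y l = τ ∧ Thick E (rho s τ l x) (rho s τ (stp E x y l) y)) := by
  rcases stp_cases E x y l with ⟨h0, h1⟩ | ⟨h0, h1⟩ | ⟨-, -, h1 | ⟨h1, h2⟩⟩
  · left
    rw [h1, h0]
  · by_cases h2 : l = τ
    · right
      subst h2
      rw [h1, rho_eq, rho_eq]
      exact ⟨rfl, rfl, h0⟩
    · left
      rw [h1]
      by_cases h3 : ∃ c : P × P, (c :: τ) <:+ l
      · obtain ⟨c, hc⟩ := h3
        rw [rho_exit s hc, rho_exit s hc]
      · rw [rho_enter s h2 h3, rho_enter s h2 h3]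
  · left
    have := rho_cons s τ (stp E x y l) y x
    rw [← h1] at this
    exact this.symm
  · left
    rw [h2]
    exact rho_cons s τ l x y

theorem rho_mem {s : P} {E : Set P} {τ l : List (P × P)} {x : P} (hx : x ∈ E)
    (hl : ∀ c ∈ l, c.1 ∈ E) (hτ : ∀ c ∈ τ, c.2 ∈ E) : rho s τ l x ∈ E := by
  by_cases h1 : l = τ
  · subst h1
    rw [rho_eq]
    exact hx
  · by_cases h3 : ∃ c : P × P, (c :: τ) <:+ l
    · obtain ⟨c, hc⟩ := h3
      rw [rho_exit s hc]
      exact hl c (hc.subset (List.mem_cons_self))
    · rw [rho_enter s h1 h3]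
      cases τ with
      | nil =>
        exfalso
        apply h3
        cases l using List.reverseRecOn with
        | nil => exact absurd rfl h1
        | append_singleton t c => exact ⟨c, List.suffix_append t [c]⟩
      | cons d t =>
        simp only [List.head?_cons, Option.map_some, Option.getD_some]
        exact hτ d List.mem_cons_self

/-- `τ` is a suffix of `l`: equality or exit. -/
theorem suffix_cases {τ l : List (P × P)} (h : τ <:+ l) :
    l = τ ∨ ∃ c : P × P, (c :: τ) <:+ l := by
  obtain ⟨t, rfl⟩ := h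
  cases t using List.reverseRecOn with
  | nil => exact Or.inl rfl
  | append_singleton t c =>
    right
    refine ⟨c, ?_⟩
    rw [List.append_assoc]
    exact List.suffix_append t ([c] ++ τ)

/-- Leaving the part beyond `τ`. -/
theorem stp_leave {E : Set P} {x y : P} {τ l : List (P × P)} (h1 : τ <:+ l)
    (h2 : ¬ τ <:+ stp E x y l) : ∃ t, τ = (y, x) :: t := by
  rcases stp_cases E x y l with ⟨-, h3⟩ | ⟨-, h3⟩ | ⟨-, -, h3 | ⟨-, h3⟩⟩
  · rw [h3] at h2; exact absurd h1 h2
  · rw [h3] at h2; exact absurd h1 h2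
  · rw [h3] at h1
    rcases List.suffix_cons_iff.1 h1 with h4 | h4
    · exact ⟨_, h4⟩
    · exact absurd h4 h2
  · rw [h3] at h2
    exact absurd (h1.trans (List.suffix_cons _ _)) h2

/-- The last step inside the part beyond `τ`. -/
theorem stp_leave' {E : Set P} {x y : P} {τ l : List (P × P)} (h1 : τ <:+ l)
    (h2 : ¬ τ <:+ stp E x y l) : l = τ ∧ l = (y, x) :: stp E x y l := by
  rcases stp_cases E x y l with ⟨-, h3⟩ | ⟨-, h3⟩ | ⟨-, -, h3 | ⟨-, h3⟩⟩
  · rw [h3] at h2; exact absurd h1 h2
  · rw [h3] at h2; exact absurd h1 h2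
  · refine ⟨?_, h3⟩
    rw [h3] at h1
    rcases List.suffix_cons_iff.1 h1 with h4 | h4
    · rw [h3]
      exact h4.symm
    · exact absurd h4 h2
  · rw [h3] at h2
    exact absurd (h1.trans (List.suffix_cons _ _)) h2

end Pool.Agent.Helper98.HX
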