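import Pool.Agent.Helper9.FX.Cover
import Pool.Agent.Helper98.HX.Words

/-!
MP_3976d4_co, project HX: the covering of `E` which unrolls the edges lying in no chain of three
elements, and the tameness criterion it gives.
-/

set_option autoImplicit false

universe u

namespace Pool.Agent.Helper98.HX

open Pool.Agent.Helper31.FX Filter

/-- Positions: a reduced word and an element of `E`. -/
def XX {P : Type u} [PartialOrder P] (E : Set P) : Type u :=
  {p : List (P × P) × P // Red p.1 ∧ p.2 ∈ E ∧ ∀ c ∈ p.1, c.1 ∈ E ∧ c.2 ∈ E}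

/-- `E` contains a ray all of whose edges lie in chains of three elements of `E`, and which is
bounded with respect to paths of such edges. -/
def HasBoundedThickRay {P : Type u} [PartialOrder P] (E : Set P) : Prop :=
  ∃ v : ℕ → P, Function.Injective v ∧ (∀ k, v k ∈ E) ∧ (∀ k, Thick E (v k) (v (k + 1))) ∧
    ∃ (c : P) (n : ℕ), ∀ i, ∃ p : ℕ → P, p 0 = c ∧ p n = v i ∧ (∀ j ≤ n, p j ∈ E) ∧
      ∀ j < n, p j = p (j + 1) ∨ Thick E (p j) (p (j + 1))

variable {P : Type u} [PartialOrder P] {E : Set P}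

theorem XX.ext {a b : XX E} (h1 : a.1.1 = b.1.1) (h2 : a.1.2 = b.1.2) : a = b :=
  Subtype.ext (Prod.ext h1 h2)

instance : PartialOrder (XX E) where
  le a b := a.1.2 ≤ b.1.2 ∧ b.1.1 = stp E a.1.2 b.1.2 a.1.1
  le_refl a := ⟨le_rfl, (stp_self _ _ _).symm⟩
  le_trans a b c hab hbc := ⟨hab.1.trans hbc.1, by
    rw [hbc.2, hab.2]
    exact stp_tri a.2.2.1 b.2.2.1 c.2.2.1 (Or.inl hab.1) (Or.inl hbc.1)
      (Or.inl (hab.1.trans hbc.1)) a.2.1⟩
  le_antisymm a b hab hba := by
    have h := le_antisymm hab.1 hba.1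
    refine XX.ext ?_ h
    have h2 := hab.2
    rw [h, stp_self] at h2
    exact h2.symm

theorem le_iff {a b : XX E} : a ≤ b ↔ a.1.2 ≤ b.1.2 ∧ b.1.1 = stp E a.1.2 b.1.2 a.1.1 := Iff.rfl

/-- The move to a comparable element. -/
noncomputable def move (a : XX E) (e : P) (he : e ∈ E) : XX E :=
  ⟨(stp E a.1.2 e a.1.1, e), a.2.1.stp, he, fun c hc => by
    rcases mem_stp hc with h | ⟨h, -⟩
    · exact a.2.2.2 c h
    · rw [h]
      exact ⟨a.2.2.1, he⟩⟩

/-- The projection. -/
def qq (E : Set P) (a : XX E) : P := a.1.2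

theorem isCover_qq : IsCover (qq E) E where
  mem a := a.2.2.1
  onto e he := ⟨⟨([], e), red_nil, he, fun c hc => absurd hc (by simp)⟩, rfl⟩
  mono _ _ h := h.1
  up a e he h := by
    refine ⟨move a e he, ⟨⟨h, rfl⟩, rfl⟩, ?_⟩
    rintro z ⟨hz, rfl⟩
    exact XX.ext hz.2 rfl
  down a e he h := by
    refine ⟨move a e he, ⟨⟨h, (stp_back a.2.1).symm⟩, rfl⟩, ?_⟩
    rintro z ⟨hz, rfl⟩
    refine XX.ext ?_ rfl
    show z.1.1 = stp E a.1.2 (qq E z) a.1.1
    rw [hz.2]
    exact (stp_back z.2.1).symm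

theorem word_of_cmp {a b : XX E} (h : a ≤ b ∨ b ≤ a) : b.1.1 = stp E a.1.2 b.1.2 a.1.1 := by
  rcases h with h | h
  · exact h.2
  · rw [h.2]
    exact (stp_back b.2.1).symm

/-- The length of the word along a path. -/
theorem length_path {p : ℕ → XX E} {n : ℕ} (hp : ∀ j < n, p j ≤ p (j + 1) ∨ p (j + 1) ≤ p j)
    (j : ℕ) (hj : j ≤ n) : (p j).1.1.length ≤ (p 0).1.1.length + j := by
  induction j with
  | zero => exact le_rfl
  | succ j ih =>
    have h1 := ih (by omega)
    have h2 := word_of_cmp (hp j (by omega))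
    rw [h2]
    have h3 := length_stp E (p j).1.2 (p (j + 1)).1.2 (p j).1.1
    omega

/-- On a ray with bounded words the word is finally constant. -/
theorem word_const {v : ℕ → XX E} (hv : Function.Injective v)
    (hc : ∀ k, v k ≤ v (k + 1) ∨ v (k + 1) ≤ v k) {M : ℕ} (hM : ∀ k, (v k).1.1.length ≤ M) :
    ∃ k0, ∀ k, k0 ≤ k → (v k).1.1 = (v k0).1.1 := by
  classical
  have hex : ∃ m : ℕ, ∀ K : ℕ, ∃ k, K ≤ k ∧ (v k).1.1.length ≤ m := ⟨M, fun K => ⟨K, le_rfl, hM K⟩⟩
  have hm := Nat.find_spec hex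
  have hmin := fun (m' : ℕ) (h : m' < Nat.find hex) => Nat.find_min hex h
  set m := Nat.find hex with hmdef
  have hK : ∃ K : ℕ, ∀ k, K ≤ k → m ≤ (v k).1.1.length := by
    rcases Nat.eq_zero_or_pos m with h | h
    · exact ⟨0, fun k _ => by omega⟩
    · have h1 := hmin (m - 1) (by omega)
      push Not at h1
      obtain ⟨K, h2⟩ := h1
      exact ⟨K, fun k hk => by have := h2 k hk; omega⟩
  obtain ⟨K, hK⟩ := hK
  obtain ⟨k0, hk0, hl0⟩ := hm K
  refine ⟨k0, ?_⟩
  intro k hk
  induction k, hk using Nat.le_induction with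
  | base => rfl
  | succ k hk ih =>
    have hw := word_of_cmp (hc k)
    have hlen : (v k).1.1.length = m := by
      rw [ih]
      exact le_antisymm hl0 (hK k0 hk0)
    have hK1 := hK (k + 1) (by omega)
    rcases stp_cases E (v k).1.2 (v (k + 1)).1.2 (v k).1.1 with ⟨-, h1⟩ | ⟨-, h1⟩ |
      ⟨-, -, h1 | ⟨-, h1⟩⟩
    · rw [hw, h1, ih]
    · rw [hw, h1, ih]
    · exfalso
      have h2 := congrArg List.length h1
      rw [List.length_cons, ← hw] at h2
      omega
    · exfalso
      rw [← hw] at h1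
      -- the next return
      have hret : ∃ j, k + 1 < j ∧ (v j).1.1.length ≤ m := by
        obtain ⟨j, hj, hj2⟩ := hm (k + 2)
        exact ⟨j, by omega, hj2⟩
      have hj := Nat.find_spec hret
      have hjmin := fun (i : ℕ) (h : i < Nat.find hret) => Nat.find_min hret h
      set j := Nat.find hret with hjdef
      have hsuf : ∀ i, k + 1 ≤ i → i < j → (v (k + 1)).1.1 <:+ (v i).1.1 := by
        intro i hi
        induction i, hi using Nat.le_induction with
        | base => intro _; exact List.suffix_refl _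
        | succ i hi ih2 =>
          intro hij
          by_contra hcon
          have h3 := ih2 (by omega)
          have h4 := word_of_cmp (hc i)
          rw [h4] at hcon
          obtain ⟨h5, h6⟩ := stp_leave' h3 hcon
          rw [← h4] at h6
          have h7 := congrArg List.length h6
          rw [h5, List.length_cons] at h7
          have h8 := congrArg List.length h1
          rw [List.length_cons] at h8
          have h9 := hjmin (i + 1) hij
          apply h9
          refine ⟨by omega, ?_⟩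
          omega
      obtain ⟨i, hi⟩ : ∃ i, j = i + 1 := ⟨j - 1, by omega⟩
      have h3 := hsuf i (by omega) (by omega)
      have h4 := word_of_cmp (hc i)
      have h8 := congrArg List.length h1
      rw [List.length_cons] at h8
      have hcon : ¬ (v (k + 1)).1.1 <:+ stp E (v i).1.2 (v (i + 1)).1.2 (v i).1.1 := by
        rw [← h4]
        intro h
        have := h.length_le
        have h9 := hj.2
        rw [hi] at h9
        omega
      obtain ⟨h5, h6⟩ := stp_leave' h3 hcon
      rw [← h4, h5, h1] at h6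
      have h7 := List.cons.inj h6
      have h9 : (v k).1.2 = (v (i + 1)).1.2 := congrArg Prod.fst h7.1
      have h10 : v k = v (i + 1) := XX.ext h7.2 h9
      have h11 := hv h10
      omega

/-- The tameness criterion: if `E` has no bounded ray of edges lying in chains of three elements
then some covering of `E` has no bounded ray. -/
theorem coverTame_of_thick (E : Set P) (h : ¬ HasBoundedThickRay E) : CoverTame E := by
  classical
  refine ⟨XX E, inferInstance, qq E, isCover_qq, ?_⟩
  rintro ⟨v, hv, -, hc, c, n, hp⟩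
  apply h
  obtain ⟨k0, hk0⟩ := word_const hv hc (M := c.1.1.length + n) (by
    intro k
    obtain ⟨p, h0, hn, -, hpc⟩ := hp k
    have := length_path hpc n le_rfl
    rw [h0, hn] at this
    exact this)
  set w := (v k0).1.1 with hw
  have hwk : ∀ i, (v (k0 + i)).1.1 = w := fun i => hk0 _ (by omega)
  refine ⟨fun i => (v (k0 + i)).1.2, ?_, fun i => (v (k0 + i)).2.2.1, ?_,
    rho c.1.2 w c.1.1 c.1.2, n, ?_⟩
  · intro i j hij
    have h1 : v (k0 + i) = v (k0 + j) := XX.ext ((hwk i).trans (hwk j).symm) hij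
    have := hv h1
    omega
  · intro i
    have h1 := word_of_cmp (hc (k0 + i))
    have h2 := hwk i
    have h3 : (v (k0 + i + 1)).1.1 = w := hwk (i + 1)
    rcases stp_cases E (v (k0 + i)).1.2 (v (k0 + i + 1)).1.2 (v (k0 + i)).1.1 with ⟨h4, -⟩ |
      ⟨h4, -⟩ | ⟨-, -, h4 | ⟨-, h4⟩⟩
    · exfalso
      have h5 : v (k0 + i) = v (k0 + i + 1) := XX.ext (h2.trans h3.symm) h4
      have := hv h5
      omega
    · exact h4
    · exfalso
      rw [← h1, h2, h3] at h4
      have := congrArg List.length h4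
      simp at this
    · exfalso
      rw [← h1, h2, h3] at h4
      have := congrArg List.length h4
      simp at this
  · intro i
    obtain ⟨p, h0, hn, -, hpc⟩ := hp (k0 + i)
    refine ⟨fun j => rho c.1.2 w (p j).1.1 (p j).1.2, ?_, ?_, ?_, ?_⟩
    · simp only [h0]
    · simp only [hn]
      rw [hwk i, rho_eq]
    · intro j _
      refine rho_mem (p j).2.2.1 (fun d hd => ((p j).2.2.2 d hd).1) ?_
      intro d hd
      exact ((v k0).2.2.2 d hd).2
    · intro j hj
      have h1 := word_of_cmp (hpc j hj)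
      have h2 := rho_stp c.1.2 E w (p j).1.1 (p j).1.2 (p (j + 1)).1.2
      rw [← h1] at h2
      rcases h2 with h2 | ⟨-, -, h2⟩
      · exact Or.inl h2
      · exact Or.inr h2

/-- Finitely many thick neighbours. -/
theorem not_hasBoundedThickRay_of_finite (E : Set P)
    (hloc : ∀ d ∈ E, {e | e ∈ E ∧ Thick E d e}.Finite) : ¬ HasBoundedThickRay E := by
  rintro ⟨v, hv, hvE, -, c, n, hp⟩
  have hfin : ∀ k, {x | ∃ p : ℕ → P, p 0 = c ∧ p k = x ∧ (∀ j ≤ k, p j ∈ E) ∧
      ∀ j < k, p j = p (j + 1) ∨ Thick E (p j) (p (j + 1))}.Finite := by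
    intro k
    induction k with
    | zero =>
      refine (Set.finite_singleton c).subset ?_
      rintro x ⟨p, h0, hx, -, -⟩
      exact hx.symm.trans h0
    | succ k ih =>
      have hu : (⋃ d ∈ {x | ∃ p : ℕ → P, p 0 = c ∧ p k = x ∧ (∀ j ≤ k, p j ∈ E) ∧
          ∀ j < k, p j = p (j + 1) ∨ Thick E (p j) (p (j + 1))},
            insert d {e | e ∈ E ∧ Thick E d e}).Finite := by
        refine ih.biUnion ?_
        rintro d ⟨p, -, rfl, hE, -⟩
        exact (hloc _ (hE k le_rfl)).insert _
      refine hu.subset ?_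
      rintro x ⟨p, h0, rfl, hE, hc⟩
      rw [Set.mem_iUnion₂]
      refine ⟨p k, ⟨p, h0, rfl, fun j hj => hE j (by omega), fun j hj => hc j (by omega)⟩, ?_⟩
      rcases hc k (by omega) with h | h
      · exact Or.inl h.symm
      · exact Or.inr ⟨hE (k + 1) le_rfl, h⟩
  have h := (hfin n).subset (show Set.range v ⊆ _ from by
    rintro _ ⟨i, rfl⟩
    exact hp i)
  exact Set.infinite_range_of_injective hv h

/-- A thick pair gives a chain of three elements. -/
theorem Thick.three {x y : P} (h : Thick E x y) (hx : x ∈ E) (hy : y ∈ E) :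
    ∃ a ∈ E, ∃ b ∈ E, ∃ c ∈ E, a < b ∧ b < c := by
  obtain ⟨hne, hxy, z, hz, hzx, hzy, c1, c2⟩ := h
  have lt : ∀ {a b : P}, a ≤ b → a ≠ b → a < b := fun h h' => lt_of_le_of_ne h h'
  rcases hxy with h | h
  · rcases c1 with h1 | h1
    · exact ⟨z, hz, x, hx, y, hy, lt h1 hzx, lt h hne⟩
    · rcases c2 with h2 | h2
      · exact ⟨x, hx, z, hz, y, hy, lt h1 hzx.symm, lt h2 hzy⟩
      · exact ⟨x, hx, y, hy, z, hz, lt h hne, lt h2 hzy.symm⟩
  · rcases c2 with h1 | h1
    · exact ⟨z, hz, y, hy, x, hx, lt h1 hzy, lt h hne.symm⟩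
    · rcases c1 with h2 | h2
      · exact ⟨y, hy, z, hz, x, hx, lt h1 hzy.symm, lt h2 hzx⟩
      · exact ⟨y, hy, x, hx, z, hz, lt h hne.symm, lt h2 hzx.symm⟩

/-- Every element of `E` lies in only finitely many chains of three elements of `E`. -/
theorem coverTame_of_finite_thick (E : Set P)
    (hloc : ∀ d ∈ E, {e | e ∈ E ∧ Thick E d e}.Finite) : CoverTame E :=
  coverTame_of_thick E (not_hasBoundedThickRay_of_finite E hloc)

/-- No chain of three elements. -/
theorem coverTame_of_no_three (E : Set P)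
    (h3 : ∀ a ∈ E, ∀ b ∈ E, ∀ c ∈ E, a < b → ¬ b < c) : CoverTame E := by
  refine coverTame_of_thick E ?_
  rintro ⟨v, -, hvE, ht, -⟩
  obtain ⟨a, ha, b, hb, c, hc, h1, h2⟩ := (ht 0).three (hvE 0) (hvE 1)
  exact h3 a ha b hb c hc h1 h2

/-- The old alternative of `Tame` implies `CoverTame`. -/
theorem coverTame_of_or (E : Set P)
    (h : CoverTame E ∨ ∀ a ∈ E, ∀ b ∈ E, ∀ c ∈ E, a < b → ¬ b < c) : CoverTame E :=
  h.elim id (coverTame_of_no_three E)

end Pool.Agent.Helper98.HX
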